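import Pool.Agent.H712Z.CK.Main

set_option autoImplicit false

namespace Pool.Agent.Results.MP_f896b9_an.AExactValues

open Pool.Agent.H712Z.CK

/-- The exact values of `c_{C([0, ω^α])}` for the three classes, for all countable `α ≥ 2`. -/
theorem result (α : Ordinal.{0}) (hα : α < Ordinal.omega 1) (h2 : 2 ≤ α) :
    classVal (Ordinal.omega0 ^ α) NontrivialType = 2 ∧
    classVal (Ordinal.omega0 ^ α) NontrivialCotype = 2 ∧
    (α < Ordinal.omega0 → classVal (Ordinal.omega0 ^ α) Superreflexive = 2) ∧
    (Ordinal.omega0 ≤ α → classVal (Ordinal.omega0 ^ α) Superreflexive = 1) :=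
  exact_values α hα h2

end Pool.Agent.Results.MP_f896b9_an.AExactValues
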